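import Pool.Agent.Y472.K.Defs

/-! Laplace's method for a sum over a lattice and an integral. -/

set_option autoImplicit false
set_option linter.unusedSectionVars false

namespace Pool.Agent.Y407.TK

open Finset Filter Topology MeasureTheory Set

section

variable {ι : Type} [Fintype ι]

/-- the lattice point -/
noncomputable def kk (m : ι → ℝ) (s : ℝ) (z : ι → ℝ) : ι → ℤ := fun i => ⌊m i + s * z i⌋

lemma kk_meas (m : ι → ℝ) (s : ℝ) : Measurable (kk m s) := by
  refine measurable_pi_lambda _ fun i => ?_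
  have h : Measurable (fun z : ι → ℝ => m i + s * z i) := by fun_prop
  exact Int.measurable_floor.comp h

lemma kk_preim (m : ι → ℝ) {s : ℝ} (hs : 0 < s) (k : ι → ℤ) :
    kk m s ⁻¹' {k} = Set.pi univ fun i => Ico (((k i : ℝ) - m i) / s) (((k i : ℝ) + 1 - m i) / s) := by
  ext z
  simp only [Set.mem_preimage, Set.mem_singleton_iff, Set.mem_pi, Set.mem_univ, true_imp_iff,
    Set.mem_Ico]
  constructor
  · rintro h i
    have h1 : ⌊m i + s * z i⌋ = k i := congrFun h i
    rw [Int.floor_eq_iff] at h1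
    rw [div_le_iff₀ hs, lt_div_iff₀ hs]
    constructor <;> linarith [h1.1, h1.2, mul_comm s (z i)]
  · intro h
    funext i
    show ⌊m i + s * z i⌋ = k i
    have h1 := h i
    rw [div_le_iff₀ hs, lt_div_iff₀ hs] at h1
    rw [Int.floor_eq_iff]
    constructor <;> linarith [h1.1, h1.2, mul_comm s (z i)]

lemma kk_vol (m : ι → ℝ) {s : ℝ} (hs : 0 < s) (k : ι → ℤ) :
    (Measure.map (kk m s) volume).real {k} = 1 / s ^ Fintype.card ι := by
  unfold Measure.real
  rw [Measure.map_apply (kk_meas m s) (measurableSet_singleton k), kk_preim m hs,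
    Real.volume_pi_Ico]
  have h1 : ∀ i, ((k i : ℝ) + 1 - m i) / s - ((k i : ℝ) - m i) / s = 1 / s := by
    intro i; ring
  simp only [h1, Finset.prod_const, Finset.card_univ]
  rw [ENNReal.toReal_pow, ENNReal.toReal_ofReal (by positivity), div_pow, one_pow]

/-- the sum over the lattice as an integral -/
lemma sum_eq (m : ι → ℝ) {s : ℝ} (hs : 0 < s) (G : (ι → ℤ) → ℂ)
    (hG : Integrable (fun z => G (kk m s z))) :
    ∫ z, G (kk m s z) = 1 / (s : ℂ) ^ Fintype.card ι * ∑' k, G k := by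
  have hm : AEMeasurable (kk m s) volume := (kk_meas m s).aemeasurable
  have hGm : AEStronglyMeasurable G (Measure.map (kk m s) volume) :=
    (StronglyMeasurable.of_discrete).aestronglyMeasurable
  rw [← integral_map hm hGm, integral_countable]
  · rw [← tsum_mul_left]
    refine tsum_congr fun k => ?_
    rw [kk_vol m hs]
    simp
  · rw [integrable_map_measure hGm hm]
    exact hG

/-- the integrand -/
noncomputable def Ph (f : (ι → ℤ) → ℝ → ℂ) (m : ι → ℝ) (s : ℝ) (v : (ι → ℝ) × ℝ) : ℂ :=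
  f (kk m s v.1) (v.2 / s)

lemma Ph_meas {f : (ι → ℤ) → ℝ → ℂ} (hf : ∀ k, Measurable (f k)) (m : ι → ℝ) (s : ℝ) :
    Measurable (Ph f m s) := by
  have h1 : Measurable (fun p : (ι → ℤ) × ℝ => f p.1 p.2) :=
    measurable_from_prod_countable_right hf
  exact h1.comp (((kk_meas m s).comp measurable_fst).prodMk (measurable_snd.div_const s))

lemma Ph_int {f : (ι → ℤ) → ℝ → ℂ} (m : ι → ℝ) {s : ℝ} (hs : 0 < s)
    (hI : Integrable (Ph f m s)) :
    ∫ v, Ph f m s v = (s : ℂ) / (s : ℂ) ^ Fintype.card ι * ∑' k, ∫ x, f k x := by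
  rw [Measure.volume_eq_prod] at hI ⊢
  rw [integral_prod _ hI]
  have h1 : ∀ z : ι → ℝ, ∫ ξ, Ph f m s (z, ξ) = (s : ℂ) * ∫ x, f (kk m s z) x := by
    intro z
    have h2 := Measure.integral_comp_div (fun x => f (kk m s z) x) s
    rw [abs_of_pos hs] at h2
    rw [show (s : ℂ) * ∫ x, f (kk m s z) x = s • ∫ x, f (kk m s z) x from by
      rw [Complex.real_smul], ← h2]
    rfl
  have h3 := hI.integral_prod_left
  simp only [h1] at h3 ⊢
  rw [sum_eq m hs (fun k => (s : ℂ) * ∫ x, f k x) h3, tsum_mul_left]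
  ring

/-- the dominating function -/
noncomputable def Bd (ι : Type) [Fintype ι] (C c : ℝ) (v : (ι → ℝ) × ℝ) : ℝ :=
  |C| * Real.exp (c * Fintype.card ι) *
    ((∏ i, Real.exp (-(c / 2) * v.1 i ^ 2)) * Real.exp (-(c / 2) * v.2 ^ 2))

lemma Bd_int (C : ℝ) {c : ℝ} (hc : 0 < c) : Integrable (Bd ι C c) := by
  unfold Bd
  apply Integrable.const_mul
  rw [Measure.volume_eq_prod]
  have hg : Integrable (fun x : ℝ => Real.exp (-(c / 2) * x ^ 2)) :=
    integrable_exp_neg_mul_sq (by positivity)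
  have h1 : Integrable (fun z : ι → ℝ => ∏ i, Real.exp (-(c / 2) * z i ^ 2)) :=
    Integrable.fintype_prod (f := fun _ x => Real.exp (-(c / 2) * x ^ 2)) (fun _ => hg)
  exact h1.mul_prod hg

lemma fl_sq (m s z : ℝ) (hs : 1 ≤ s) :
    z ^ 2 / 2 - 1 ≤ (((⌊m + s * z⌋ : ℤ) : ℝ) - m) ^ 2 / s ^ 2 := by
  have hs0 : 0 < s := by linarith
  have h1 := Int.floor_le (m + s * z)
  have h2 := Int.lt_floor_add_one (m + s * z)
  set θ := m + s * z - ⌊m + s * z⌋ with hθ
  have h3 : 0 ≤ θ := by rw [hθ]; linarith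
  have h4 : θ ≤ 1 := by rw [hθ]; linarith
  have h5 : ((⌊m + s * z⌋ : ℤ) : ℝ) - m = s * z - θ := by rw [hθ]; ring
  rw [h5, le_div_iff₀ (by positivity)]
  have h6 : 1 ≤ s ^ 2 := one_le_pow₀ hs
  nlinarith [sq_nonneg (s * z - 2 * θ), sq_nonneg θ, mul_le_mul h4 h4 h3 zero_le_one]

lemma Ph_le {f : (ι → ℤ) → ℝ → ℂ} (m : ι → ℝ) {s C c : ℝ} (hs : 1 ≤ s) (hc : 0 < c)
    (h : ∀ k x, ‖f k x‖ ≤ C * Real.exp (-(c * ((∑ i, ((k i : ℝ) - m i) ^ 2) / s ^ 2 +
      s ^ 2 * x ^ 2)))) (v : (ι → ℝ) × ℝ) : ‖Ph f m s v‖ ≤ Bd ι C c v := by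
  have hs0 : 0 < s := by linarith
  refine (h _ _).trans ?_
  unfold Bd
  refine (mul_le_mul_of_nonneg_right (le_abs_self C) (Real.exp_pos _).le).trans ?_
  rw [mul_assoc]
  apply mul_le_mul_of_nonneg_left _ (abs_nonneg C)
  rw [← Real.exp_sum, ← Real.exp_add, ← Real.exp_add, Real.exp_le_exp]
  have h1 : s ^ 2 * (v.2 / s) ^ 2 = v.2 ^ 2 := by
    field_simp
  have h2 : ∑ i, (v.1 i ^ 2 / 2 - 1) ≤ (∑ i, (((kk m s v.1 i : ℤ) : ℝ) - m i) ^ 2) / s ^ 2 := by
    rw [Finset.sum_div]
    exact Finset.sum_le_sum fun i _ => fl_sq (m i) s (v.1 i) hs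
  rw [Finset.sum_sub_distrib, Finset.sum_const, Finset.card_univ, nsmul_eq_mul, mul_one,
    ← Finset.sum_div] at h2
  rw [h1, ← Finset.mul_sum]
  nlinarith [sq_nonneg v.2, mul_le_mul_of_nonneg_left h2 hc.le, mul_nonneg hc.le (sq_nonneg v.2)]

end

/-- Laplace's method for a sum over a lattice and an integral. -/
theorem lap : Pool.Agent.Y472.K.S_LAP := by
  intro ι _ f m g C c hc hf hbd hlim
  have hint : Tendsto (fun N : ℕ => ∫ v, Ph (f N) (m N) (√N) v) atTop (𝓝 (∫ v, g v)) := by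
    apply tendsto_integral_filter_of_dominated_convergence (Bd ι C c)
    · exact Eventually.of_forall fun N => (Ph_meas (hf N) (m N) (√N)).aestronglyMeasurable
    · filter_upwards [hbd, eventually_ge_atTop 1] with N hN hN1
      refine Eventually.of_forall fun v => ?_
      have hN0 : (1 : ℝ) ≤ N := by exact_mod_cast hN1
      apply Ph_le (m N) _ hc
      · intro k x
        rw [Real.sq_sqrt (by positivity)]
        exact hN k x
      · exact Real.one_le_sqrt.2 hN0
    · exact Bd_int C hc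
    · refine Eventually.of_forall fun v => ?_
      have hsq : Tendsto (fun N : ℕ => √(N : ℝ)) atTop atTop :=
        Real.tendsto_sqrt_atTop.comp tendsto_natCast_atTop_atTop
      refine hlim (fun N => kk (m N) (√N) v.1) (fun N => v.2 / √N) v ?_ ?_
      · intro i
        have h1 : Tendsto (fun N : ℕ => v.1 i - 1 / √(N : ℝ)) atTop (𝓝 (v.1 i)) := by
          have := (tendsto_const_nhds (x := v.1 i)).sub (hsq.const_div_atTop 1)
          simpa using this
        refine tendsto_of_tendsto_of_tendsto_of_le_of_le' h1 tendsto_const_nhds ?_ ?_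
        · filter_upwards [eventually_ge_atTop 1] with N hN1
          have hs : 0 < √(N : ℝ) := Real.sqrt_pos.2 (by exact_mod_cast hN1)
          have h2 := Int.lt_floor_add_one (m N i + √N * v.1 i)
          rw [le_div_iff₀ hs, sub_mul, one_div, inv_mul_cancel₀ hs.ne']
          show _ ≤ ((⌊m N i + √N * v.1 i⌋ : ℤ) : ℝ) - m N i
          linarith [mul_comm (v.1 i) (√(N : ℝ))]
        · filter_upwards [eventually_ge_atTop 1] with N hN1
          have hs : 0 < √(N : ℝ) := Real.sqrt_pos.2 (by exact_mod_cast hN1)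
          have h2 := Int.floor_le (m N i + √N * v.1 i)
          rw [div_le_iff₀ hs]
          show ((⌊m N i + √N * v.1 i⌋ : ℤ) : ℝ) - m N i ≤ _
          linarith [mul_comm (v.1 i) (√(N : ℝ))]
      · refine tendsto_const_nhds.congr' ?_
        filter_upwards [eventually_ge_atTop 1] with N hN1
        have hs : 0 < √(N : ℝ) := Real.sqrt_pos.2 (by exact_mod_cast hN1)
        field_simp
  refine hint.congr' ?_
  filter_upwards [hbd, eventually_ge_atTop 1] with N hN hN1
  have hN0 : (1 : ℝ) ≤ N := by exact_mod_cast hN1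
  have hs : 1 ≤ √(N : ℝ) := Real.one_le_sqrt.2 hN0
  apply Ph_int (m N) (by linarith)
  refine (Bd_int (ι := ι) C hc).mono' (Ph_meas (hf N) (m N) (√N)).aestronglyMeasurable ?_
  refine Eventually.of_forall fun v => Ph_le (m N) hs hc ?_ v
  intro k x
  rw [Real.sq_sqrt (by positivity)]
  exact hN k x

end Pool.Agent.Y407.TK
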